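import Pool.Agent.H77.PG.Pos

/-!
# Isometric parametrisation of a surface near a point of vanishing curvature
-/

set_option autoImplicit false

namespace Pool.Agent.H77.PG

open scoped InnerProductSpace Topology ContDiff
open Set Filter Pool.Agent.H91.GE

variable {E F : Type*} [NormedAddCommGroup E] [InnerProductSpace ℝ E] [FiniteDimensional ℝ E]
  [NormedAddCommGroup F] [InnerProductSpace ℝ F] [FiniteDimensional ℝ F]
  {S : Set E}

/-- **The exponential map of a point of curvature zero is a local isometry** (if the curvature is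
locally constant). -/
theorem flat_patch (hdim : Module.finrank ℝ E = Module.finrank ℝ F + 2) (hS : IsCompact S)
    (hsub : IsSub F S) (hd : Flat1 S) {X : E} (hX : X ∈ S) (hk : CurvAt S X 0) :
    ∃ φ : EuclideanSpace ℝ (Fin 2) → E, ContDiff ℝ ∞ φ ∧ (∀ w, φ w ∈ S) ∧
      (∃ W : Set E, IsOpen W ∧ X ∈ W ∧ S ∩ W ⊆ range φ) ∧
      ∀ u a b, ⟪fderiv ℝ φ u a, fderiv ℝ φ u b⟫_ℝ = ⟪a, b⟫_ℝ := by
  obtain ⟨A, K, K₂, Φ, h⟩ := exists_GFlow hS hsub
  obtain ⟨U, hU, f, hf⟩ := hsub X hX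
  obtain ⟨e, ν, he, hν, he1, hν1, heν⟩ := exists_orthonormal_ker hdim (hf.surj X hU)
  have hνe : ⟪ν, e⟫_ℝ = 0 := by rw [real_inner_comm]; exact heν
  have hee : ⟪e, e⟫_ℝ = 1 := by rw [real_inner_self_eq_norm_sq, he1]; norm_num
  have hνν : ⟪ν, ν⟫_ℝ = 1 := by rw [real_inner_self_eq_norm_sq, hν1]; norm_num
  let L : EuclideanSpace ℝ (Fin 2) →L[ℝ] E :=
    (EuclideanSpace.proj (𝕜 := ℝ) (0 : Fin 2)).smulRight e
      + (EuclideanSpace.proj (𝕜 := ℝ) (1 : Fin 2)).smulRight ν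
  have hL : ∀ w, L w = w 0 • e + w 1 • ν := fun w => rfl
  have hLT : ∀ w, (X, L w) ∈ TSet S := fun w => (mem_TSet_iff hf hU).2 ⟨hX, by
    rw [hL, map_add, map_smul, map_smul, he, hν, smul_zero, smul_zero, add_zero]⟩
  have hLi : ∀ a b, ⟪L a, L b⟫_ℝ = ⟪a, b⟫_ℝ := by
    intro a b
    rw [hL, hL]
    simp only [inner_add_left, inner_add_right, inner_smul_left, inner_smul_right,
      RCLike.conj_to_real, heν, hνe, hee, hνν, PiLp.inner_apply, Fin.sum_univ_two,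
      RCLike.inner_apply]
    ring
  set φ : EuclideanSpace ℝ (Fin 2) → E := fun w => Geo Φ X (L w) 1 with hφ
  have hφc : ContDiff ℝ ∞ φ := by
    rw [contDiff_iff_contDiffAt]
    intro w
    have h1 := contDiffAt_Geo h (q := X) (u := L) (b := w) L.contDiff.contDiffAt hLT 1
    have h2 : ContDiffAt ℝ ∞ (fun w : EuclideanSpace ℝ (Fin 2) => (w, (1 : ℝ))) w :=
      contDiffAt_id.prodMk contDiffAt_const
    exact ContDiffAt.comp w (g := fun x : EuclideanSpace ℝ (Fin 2) × ℝ => Geo Φ X (L x.1) x.2)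
      (f := fun w : EuclideanSpace ℝ (Fin 2) => (w, (1 : ℝ))) h1 h2
  have hφS : ∀ w, φ w ∈ S := fun w => (h.isGeo_Geo (hLT w)).1.mem 1
  have hφd : ∀ w a, HasDerivAt (fun s : ℝ => φ (w + s • a)) (fderiv ℝ φ w a) 0 := by
    intro w a
    have h1 : HasDerivAt (fun s : ℝ => w + s • a) a 0 := by
      simpa using ((hasDerivAt_id (0 : ℝ)).smul_const a).const_add w
    have h2 : HasFDerivAt φ (fderiv ℝ φ w) ((fun s : ℝ => w + s • a) 0) := by
      show HasFDerivAt φ (fderiv ℝ φ w) (w + (0 : ℝ) • a)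
      rw [zero_smul, add_zero]
      exact (hφc.differentiable (by simp) w).hasFDerivAt
    exact HasFDerivAt.comp_hasDerivAt (l := φ) (f := fun s : ℝ => w + s • a) (0 : ℝ) h2 h1
  -- norms
  have hne : ∀ w a, w ≠ 0 → ⟪fderiv ℝ φ w a, fderiv ℝ φ w a⟫_ℝ = ⟪a, a⟫_ℝ := by
    intro w a hw
    set u : ℝ → E := fun s => L (w + s • a) with hu
    have huc : ContDiff ℝ ∞ u :=
      L.contDiff.comp (contDiff_const.add (contDiff_id.smul contDiff_const))
    obtain ⟨hF, hV0, hV'⟩ := fam_of h huc (fun s => hLT _)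
    set G : ℝ → ℝ → E := fun s t => Geo Φ X (u s) t with hG
    have hu0 : u 0 = L w := by
      show L (w + (0 : ℝ) • a) = L w
      rw [zero_smul, add_zero]
    have hud : deriv u 0 = L a := by
      have h1 : HasDerivAt (fun s : ℝ => w + s • a) a 0 := by
        simpa using ((hasDerivAt_id (0 : ℝ)).smul_const a).const_add w
      have h2 : HasDerivAt u (L a) 0 :=
        HasFDerivAt.comp_hasDerivAt (l := L) (f := fun s : ℝ => w + s • a) (0 : ℝ)
          L.hasFDerivAt h1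
      exact h2.deriv
    have hG0 : deriv (G 0) 0 = L w := by
      have h1 := (h.isGeo_Geo (hLT (w + (0 : ℝ) • a))).2.2
      show deriv (Geo Φ X (u 0)) 0 = L w
      rw [← hu0]; exact h1
    have hG00 : G 0 0 = X := (h.isGeo_Geo (hLT (w + (0 : ℝ) • a))).2.1
    rw [hud] at hV'
    have hV1 : VF G 1 = fderiv ℝ φ w a := (hφd w a).deriv
    obtain ⟨k, hk'⟩ := curv_const hdim hsub hd hF.geo0
    have hkk : k = 0 := by
      have h1 := hk' 0
      rw [hG00] at h1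
      exact h1.unique hdim hsub hX hk
    have hsol := hF.sol_zero hdim hsub hk' hV0 hkk 1
    have hgl := (hF.gauss_lemma hsub 1).2
    rw [hV0, inner_zero_left, hV', hG0, zero_add, one_mul] at hgl
    rw [jf, C0, hV1, hV', hG0, ← hV1, hgl, hV1, hLi, hLi, hLi, one_pow, mul_one] at hsol
    have hw2 : ⟪w, w⟫_ℝ ≠ 0 := (real_inner_self_pos.2 hw).ne'
    have h3 : ⟪fderiv ℝ φ w a, fderiv ℝ φ w a⟫_ℝ * ⟪w, w⟫_ℝ = ⟪a, a⟫_ℝ * ⟪w, w⟫_ℝ := by
      linarith
    exact mul_right_cancel₀ hw2 h3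
  have hzero : ∀ a, fderiv ℝ φ 0 a = L a := by
    intro a
    have h1 := hφd 0 a
    have h2 : (fun s : ℝ => φ (0 + s • a)) = Geo Φ X (L a) := by
      funext s
      show Geo Φ X (L (0 + s • a)) 1 = _
      rw [zero_add, map_smul, h.Geo_smul (hLT a), mul_one]
    rw [h2] at h1
    rw [← h1.deriv]
    exact (h.isGeo_Geo (hLT a)).2.2
  have hnorm : ∀ w a, ⟪fderiv ℝ φ w a, fderiv ℝ φ w a⟫_ℝ = ⟪a, a⟫_ℝ := by
    intro w a
    by_cases hw : w = 0
    · rw [hw, hzero, hLi]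
    · exact hne w a hw
  refine ⟨φ, hφc, hφS, ?_, ?_⟩
  · obtain ⟨Ω, ψ, P, W', hc, hW'⟩ := exists_chart hdim hf hU hX
    have hPL : Function.Injective (P ∘L fderiv ℝ φ 0) := by
      intro a b hab
      have h1 : P (L a) = P (L b) := by
        have h2 : P (fderiv ℝ φ 0 a) = P (fderiv ℝ φ 0 b) := hab
        rwa [hzero, hzero] at h2
      have h3 : L a = L b := by
        rw [← (hc.of_TSet hW' (hLT a)).2.2, ← (hc.of_TSet hW' (hLT b)).2.2, h1]
      have h4 : ⟪a - b, a - b⟫_ℝ = 0 := by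
        rw [← hLi, map_sub, h3, sub_self, inner_zero_left]
      exact sub_eq_zero.1 (inner_self_eq_zero.1 h4)
    have hfin : Module.finrank ℝ (EuclideanSpace ℝ (Fin 2)) = Module.finrank ℝ (ℝ × ℝ) := by
      simp
    have hPLs : Function.Surjective (P ∘L fderiv ℝ φ 0) :=
      (LinearMap.injective_iff_surjective_of_finrank_eq_finrank
        (f := (P ∘L fderiv ℝ φ 0).toLinearMap) hfin).1 hPL
    have hstr : HasStrictFDerivAt (fun w => P (φ w)) (P ∘L fderiv ℝ φ 0) 0 := by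
      have h1 : HasStrictFDerivAt φ (fderiv ℝ φ 0) 0 :=
        hφc.contDiffAt.hasStrictFDerivAt (by simp)
      exact P.hasStrictFDerivAt.comp (0 : EuclideanSpace ℝ (Fin 2)) h1
    have hmap : map (fun w => P (φ w)) (𝓝 0) = 𝓝 (P (φ 0)) :=
      hstr.map_nhds_eq_of_surj (LinearMap.range_eq_top.2 hPLs)
    have hφ0 : φ 0 = X := by
      show Geo Φ X (L 0) 1 = X
      have h1 : L 0 = (0 : ℝ) • L 0 := by rw [map_zero, smul_zero]
      rw [h1, h.Geo_smul (hLT 0), zero_mul]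
      exact (h.isGeo_Geo (hLT 0)).2.1
    have hN : {w | φ w ∈ W'} ∈ 𝓝 (0 : EuclideanSpace ℝ (Fin 2)) :=
      hφc.continuous.continuousAt.preimage_mem_nhds (by rw [hφ0]; exact hc.W_open.mem_nhds hW')
    have hN' : (fun w => P (φ w)) '' {w | φ w ∈ W'} ∈ 𝓝 (P X) := by
      rw [← hφ0, ← hmap]
      exact image_mem_map hN
    have hN2 : {q | P q ∈ (fun w => P (φ w)) '' {w | φ w ∈ W'}} ∩ W' ∈ 𝓝 X :=
      inter_mem (P.continuous.continuousAt.preimage_mem_nhds hN') (hc.W_open.mem_nhds hW')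
    obtain ⟨W, hWs, hWo, hXW⟩ := mem_nhds_iff.1 hN2
    refine ⟨W, hWo, hXW, ?_⟩
    rintro q ⟨hqS, hqW⟩
    obtain ⟨⟨w, hw, hwq⟩, hqW'⟩ := hWs hqW
    refine ⟨w, ?_⟩
    have h1 := (hc.right q hqS hqW').2
    have h2 := (hc.right (φ w) (hφS w) hw).2
    rw [← h1, ← h2]
    exact congrArg ψ hwq
  · intro u a b
    have h1 := hnorm u (a + b)
    have h2 := hnorm u a
    have h3 := hnorm u b
    rw [map_add] at h1
    simp only [inner_add_left, inner_add_right] at h1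
    have h4 : ⟪fderiv ℝ φ u b, fderiv ℝ φ u a⟫_ℝ = ⟪fderiv ℝ φ u a, fderiv ℝ φ u b⟫_ℝ :=
      real_inner_comm _ _
    have h5 : ⟪b, a⟫_ℝ = ⟪a, b⟫_ℝ := real_inner_comm _ _
    rw [h4, h5] at h1
    linarith

end Pool.Agent.H77.PG
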