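import Pool.Agent.H91.GS.Gauss
import Pool.Agent.H91.GS.Branch

/-!
# Gauss curvature as a function on the surface
-/

set_option autoImplicit false

namespace Pool.Agent.H77.PG

open scoped InnerProductSpace Topology ContDiff
open Set Filter Pool.Agent.H91.GE

variable {E F : Type*} [NormedAddCommGroup E] [InnerProductSpace ℝ E] [FiniteDimensional ℝ E]
  [NormedAddCommGroup F] [InnerProductSpace ℝ F] [FiniteDimensional ℝ F]
  {S : Set E} {Ω Ω' : Set (ℝ × ℝ)} {ψ ψ' : ℝ × ℝ → E}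

/-- The normal part of the second derivative is the acceleration of the geodesic. -/
theorem nB_eq_Acc (hdim : Module.finrank ℝ E = Module.finrank ℝ F + 2) (hsub : IsSub F S)
    (h : Par S Ω ψ) {x : ℝ × ℝ} (hx : x ∈ Ω) {U : Set E} {f : E → F} (hf : IsLoc S U f)
    (hU : ψ x ∈ U) (w : ℝ × ℝ) : nB ψ x w w = Acc f (ψ x) (fderiv ℝ ψ x w) := by
  have hψ : HasFDerivAt ψ (fderiv ℝ ψ x) x := h.hasFDerivAt hx
  have hS : ψ x ∈ S := h.mem x hx
  have c1 : ContDiffAt ℝ ∞ (fderiv ℝ f) (ψ x) := (hf.contDiffAt hU).fderiv_right (by norm_num)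
  have h1 : HasFDerivAt (fderiv ℝ f) (fderiv ℝ (fderiv ℝ f) (ψ x)) (ψ x) :=
    (c1.differentiableAt (by simp)).hasFDerivAt
  have h2 : HasFDerivAt (fun y => fderiv ℝ f (ψ y))
      (fderiv ℝ (fderiv ℝ f) (ψ x) ∘L fderiv ℝ ψ x) x := h1.comp x hψ
  have h3 := h2.clm_apply (h.hasFDerivAt_D1 hx w)
  have h4 : (fun y => fderiv ℝ f (ψ y) (fderiv ℝ ψ y w)) =ᶠ[𝓝 x] fun _ => 0 := by
    have h5 : ∀ᶠ y in 𝓝 x, ψ y ∈ U := hψ.continuousAt.preimage_mem_nhds (hf.isOpen.mem_nhds hU)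
    filter_upwards [h5, h.isOpen.mem_nhds hx] with y hy hy'
    exact ((mem_TSet_iff hf hy).1 (h.mem_TSet hsub hy' w)).2
  have h5 := h3.unique ((hasFDerivAt_const (0 : F) x).congr_of_eventuallyEq h4)
  have h6 := congrArg (fun L : (ℝ × ℝ) →L[ℝ] F => L w) h5
  have h7 : fderiv ℝ f (ψ x) (fderiv ℝ (fderiv ℝ ψ) x w w)
      + fderiv ℝ (fderiv ℝ f) (ψ x) (fderiv ℝ ψ x w) (fderiv ℝ ψ x w) = 0 := by
    simpa using h6
  have h8 : fderiv ℝ f (ψ x) (Acc f (ψ x) (fderiv ℝ ψ x w))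
      = -(fderiv ℝ (fderiv ℝ f) (ψ x) (fderiv ℝ ψ x w) (fderiv ℝ ψ x w)) := by
    show fderiv ℝ f (ψ x) (-(Rinv _ _)) = _
    rw [map_neg, comp_Rinv (hf.surj _ hU)]
  have h9 : fderiv ℝ f (ψ x) (nB ψ x w w - Acc f (ψ x) (fderiv ℝ ψ x w)) = 0 := by
    rw [map_sub, h8, nB, map_sub, ((mem_TSet_iff hf hU).1 (h.mem_TSet hsub hx _)).2, sub_zero,
      sub_neg_eq_add]
    exact h7
  obtain ⟨z, hz⟩ := h.of_TSet hdim hsub hx ((mem_TSet_iff hf hU).2 ⟨hS, h9⟩)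
  have h10 : ⟪nB ψ x w w, nB ψ x w w - Acc f (ψ x) (fderiv ℝ ψ x w)⟫_ℝ = 0 := by
    rw [← hz]; exact h.inner_nB hx _ _ _
  have h11 : ⟪Acc f (ψ x) (fderiv ℝ ψ x w), nB ψ x w w - Acc f (ψ x) (fderiv ℝ ψ x w)⟫_ℝ = 0 := by
    show ⟪-(Rinv _ _), _⟫_ℝ = 0
    rw [inner_neg_left, inner_Rinv _ h9, neg_zero]
  have h12 : ⟪nB ψ x w w - Acc f (ψ x) (fderiv ℝ ψ x w),
      nB ψ x w w - Acc f (ψ x) (fderiv ℝ ψ x w)⟫_ℝ = 0 := by
    nth_rewrite 1 [inner_sub_left]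
    rw [h10, h11, sub_zero]
  exact sub_eq_zero.1 (inner_self_eq_zero.1 h12)

omit [FiniteDimensional ℝ E] in
theorem nB_add_self (h : Par S Ω ψ) {x : ℝ × ℝ} (hx : x ∈ Ω) (u v : ℝ × ℝ) :
    (2 : ℝ) • nB ψ x u v = nB ψ x (u + v) (u + v) - nB ψ x u u - nB ψ x v v := by
  rw [nB_add_left, nB_add_right, nB_add_right, h.nB_symm hx v u]
  module

/-- Gauss equation for a pair of vectors. -/
theorem GK_pair (h : Par S Ω ψ) {x : ℝ × ℝ} (hx : x ∈ Ω) (a b : ℝ × ℝ) :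
    ⟪nB ψ x a a, nB ψ x b b⟫_ℝ - ⟪nB ψ x a b, nB ψ x a b⟫_ℝ
      = GK ψ x * (gB ψ x a a * gB ψ x b b - gB ψ x a b ^ 2) := by
  have h1 := h.inner_Rm hx a b b a
  rw [h.gauss hx] at h1
  have h2 : gB ψ x (GK ψ x • (gB ψ x b b • a - gB ψ x a b • b)) a
      = GK ψ x * (gB ψ x b b * gB ψ x a a - gB ψ x a b * gB ψ x b a) := by
    simp [map_sub, map_smul]
  have h3 : gB ψ x b a = gB ψ x a b := by rw [gB_apply, gB_apply, real_inner_comm]
  rw [h2, h3, h.nB_symm hx b a, real_inner_comm] at h1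
  linarith

/-- **The Gauss curvature does not depend on the parametrisation.** -/
theorem GK_indep (hdim : Module.finrank ℝ E = Module.finrank ℝ F + 2) (hsub : IsSub F S)
    (h : Par S Ω ψ) (h' : Par S Ω' ψ') {p p' : ℝ × ℝ} (hp : p ∈ Ω) (hp' : p' ∈ Ω')
    (he : ψ p = ψ' p') : GK ψ p = GK ψ' p' := by
  obtain ⟨U, hU, f, hf⟩ := hsub (ψ p) (h.mem p hp)
  have hU' : ψ' p' ∈ U := he ▸ hU
  have hT : ∀ w, ∃ z, fderiv ℝ ψ p z = fderiv ℝ ψ' p' w := fun w =>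
    h.of_TSet hdim hsub hp (by rw [he]; exact h'.mem_TSet hsub hp' w)
  choose z hz using hT
  have hn : ∀ w, nB ψ' p' w w = nB ψ p (z w) (z w) := fun w => by
    rw [nB_eq_Acc hdim hsub h' hp' hf hU', nB_eq_Acc hdim hsub h hp hf hU, hz, he]
  set a : ℝ × ℝ := (1, 0) with ha
  set b : ℝ × ℝ := (0, 1) with hb
  have hzab : z (a + b) = z a + z b := by
    refine h.inj p hp ?_
    rw [hz, map_add, map_add, hz, hz]
  have hab : nB ψ' p' a b = nB ψ p (z a) (z b) := by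
    have h1 := nB_add_self h' hp' a b
    have h2 := nB_add_self h hp (z a) (z b)
    rw [hn, hn, hn, hzab, ← h2] at h1
    have h3 := congrArg (fun v : E => (1 / 2 : ℝ) • v) h1
    simpa [smul_smul] using h3
  have hg : ∀ u v, gB ψ' p' u v = gB ψ p (z u) (z v) := fun u v => by
    rw [gB_apply, gB_apply, hz, hz]
  have h1 := GK_pair h hp (z a) (z b)
  have h2 := GK_pair h' hp' a b
  rw [hn, hn, hab, hg, hg, hg, h1] at h2
  have h3 : gB ψ p (z a) (z a) * gB ψ p (z b) (z b) - gB ψ p (z a) (z b) ^ 2 ≠ 0 := by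
    have h4 := (h'.gD_pos hp').ne'
    have h5 : gD ψ' p' = gB ψ p (z a) (z a) * gB ψ p (z b) (z b) - gB ψ p (z a) (z b) ^ 2 := by
      rw [← hg, ← hg, ← hg]; rfl
    rwa [h5] at h4
  exact mul_right_cancel₀ h3 h2

/-- The Gauss curvature of `S` at `q` is `k` in every parametrisation. -/
def CurvAt (S : Set E) (q : E) (k : ℝ) : Prop :=
  ∀ (Ω : Set (ℝ × ℝ)) (ψ : ℝ × ℝ → E) (p : ℝ × ℝ), Par S Ω ψ → p ∈ Ω → ψ p = q → GK ψ p = k

theorem exists_CurvAt (hdim : Module.finrank ℝ E = Module.finrank ℝ F + 2) (hsub : IsSub F S)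
    {q : E} (hq : q ∈ S) : ∃ k, CurvAt S q k := by
  obtain ⟨U, hU, f, hf⟩ := hsub q hq
  obtain ⟨Ω, ψ, P, W, hc, hW⟩ := exists_chart hdim hf hU hq
  obtain ⟨h1, h2⟩ := hc.right q hq hW
  exact ⟨GK ψ (P q), fun Ω' ψ' p' h' hp' he =>
    (GK_indep hdim hsub h' hc.toPar hp' h1 (he.trans h2.symm))⟩

/-- All curvature differentials vanish. -/
def Flat1 (S : Set E) : Prop :=
  ∀ (Ω : Set (ℝ × ℝ)) (ψ : ℝ × ℝ → E), Par S Ω ψ → ∀ p ∈ Ω, fderiv ℝ (GK ψ) p = 0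

/-- **Constant curvature along curves.** -/
theorem curv_const_curve (hdim : Module.finrank ℝ E = Module.finrank ℝ F + 2) (hsub : IsSub F S)
    (hd : Flat1 S) {γ : ℝ → E} (hγ : Differentiable ℝ γ) (hm : ∀ t, γ t ∈ S) :
    ∃ k, ∀ t, CurvAt S (γ t) k := by
  have hex : ∀ t, ∃ k, CurvAt S (γ t) k := fun t => exists_CurvAt hdim hsub (hm t)
  choose k hk using hex
  have hder : ∀ t, HasDerivAt k 0 t := by
    intro t
    obtain ⟨U, hU, f, hf⟩ := hsub (γ t) (hm t)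
    obtain ⟨Ω, ψ, P, W, hc, hW⟩ := exists_chart hdim hf hU (hm t)
    obtain ⟨h1, h2⟩ := hc.right _ (hm t) hW
    have h3 : HasFDerivAt (GK ψ) (fderiv ℝ (GK ψ) (P (γ t))) (P (γ t)) :=
      hasFDerivAt_of_open hc.isOpen hc.toPar.smooth_GK h1
    have h4 : HasDerivAt (fun s => P (γ s)) (P (deriv γ t)) t :=
      P.hasFDerivAt.comp_hasDerivAt t (hγ t).hasDerivAt
    have h5 : HasDerivAt (fun s => GK ψ (P (γ s))) (fderiv ℝ (GK ψ) (P (γ t)) (P (deriv γ t))) t :=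
      HasFDerivAt.comp_hasDerivAt (l := GK ψ) (f := fun s => P (γ s)) t h3 h4
    rw [hd Ω ψ hc.toPar _ h1] at h5
    have h6 : k =ᶠ[𝓝 t] fun s => GK ψ (P (γ s)) := by
      have h7 : ∀ᶠ s in 𝓝 t, γ s ∈ W :=
        (hγ t).continuousAt.preimage_mem_nhds (hc.W_open.mem_nhds hW)
      filter_upwards [h7] with s hs
      obtain ⟨g1, g2⟩ := hc.right _ (hm s) hs
      exact (hk s Ω ψ _ hc.toPar g1 g2).symm
    exact (h5.congr_of_eventuallyEq h6)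
  refine ⟨k 0, fun t => ?_⟩
  have h8 : k t = k 0 := is_const_of_deriv_eq_zero (fun s => (hder s).differentiableAt)
    (fun s => (hder s).deriv) t 0
  rw [← h8]
  exact hk t

theorem curv_const (hdim : Module.finrank ℝ E = Module.finrank ℝ F + 2) (hsub : IsSub F S)
    (hd : Flat1 S) {γ : ℝ → E} (hγ : IsGeo S γ) : ∃ k, ∀ t, CurvAt S (γ t) k :=
  curv_const_curve hdim hsub hd (fun t => (hγ.hasDerivAt t).differentiableAt) hγ.mem

/-- The constant is unique. -/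
theorem CurvAt.unique (hdim : Module.finrank ℝ E = Module.finrank ℝ F + 2) (hsub : IsSub F S)
    {q : E} (hq : q ∈ S) {k k' : ℝ} (h : CurvAt S q k) (h' : CurvAt S q k') : k = k' := by
  obtain ⟨U, hU, f, hf⟩ := hsub q hq
  obtain ⟨Ω, ψ, P, W, hc, hW⟩ := exists_chart hdim hf hU hq
  obtain ⟨h1, h2⟩ := hc.right q hq hW
  rw [← h Ω ψ (P q) hc.toPar h1 h2, ← h' Ω ψ (P q) hc.toPar h1 h2]

end Pool.Agent.H77.PG
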