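import Pool.Agent.H77.PG.Indep

/-!
# Jacobi fields along geodesics of a surface, in charts
-/

set_option autoImplicit false

namespace Pool.Agent.H77.PG

open scoped InnerProductSpace Topology ContDiff
open Set Filter Pool.Agent.H91.GE

variable {E F : Type*} [NormedAddCommGroup E] [InnerProductSpace ℝ E] [FiniteDimensional ℝ E]
  [NormedAddCommGroup F] [InnerProductSpace ℝ F] [FiniteDimensional ℝ F]
  {S : Set E} {Ω : Set (ℝ × ℝ)} {ψ : ℝ × ℝ → E} {P : E →L[ℝ] ℝ × ℝ} {W : Set E}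

/-! ### The geodesic equation in a chart -/

omit [FiniteDimensional ℝ E] in
theorem acc_TSet {γ : ℝ → E} (hγ : IsGeo S γ) {t : ℝ} {v : E} (hv : (γ t, v) ∈ TSet S) :
    ⟪deriv (deriv γ) t, v⟫_ℝ = 0 := by
  obtain ⟨c, hc, hcS, hc0, hcd⟩ := hv
  have h1 := hγ.acc t c hc hcS hc0
  have hcd' : deriv c 0 = v := hcd
  rwa [hcd'] at h1

theorem geo_chart (hsub : IsSub F S) (hc : Chart S Ω ψ P W) {γ : ℝ → E} (hγ : IsGeo S γ) {t : ℝ}
    (ht : γ t ∈ W) : P (γ t) ∈ Ω ∧ ψ (P (γ t)) = γ t ∧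
      fderiv ℝ ψ (P (γ t)) (P (deriv γ t)) = deriv γ t ∧
      P (deriv (deriv γ) t) = -(Chr ψ (P (γ t)) (P (deriv γ t)) (P (deriv γ t))) := by
  obtain ⟨h1, h2, h3⟩ := hc.of_TSet ht (hγ.mem_TSet t)
  refine ⟨h1, h2, h3, ?_⟩
  have d1 : HasDerivAt (fun s => P (γ s)) (P (deriv γ t)) t :=
    P.hasFDerivAt.comp_hasDerivAt t (hγ.hasDerivAt t)
  have d2 : HasDerivAt (fun s => P (deriv γ s)) (P (deriv (deriv γ) t)) t :=
    P.hasFDerivAt.comp_hasDerivAt t (hγ.hasDerivAt' t)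
  have d3 : HasFDerivAt (fderiv ℝ ψ) (fderiv ℝ (fderiv ℝ ψ) (P (γ t))) (P (γ t)) :=
    hasFDerivAt_of_open hc.isOpen hc.toPar.smooth1 h1
  have d4 : HasDerivAt (fun s => fderiv ℝ ψ (P (γ s)))
      (fderiv ℝ (fderiv ℝ ψ) (P (γ t)) (P (deriv γ t))) t :=
    HasFDerivAt.comp_hasDerivAt (l := fderiv ℝ ψ) (f := fun s => P (γ s)) t d3 d1
  have d5 := d4.clm_apply d2
  have h4 : (fun s => fderiv ℝ ψ (P (γ s)) (P (deriv γ s))) =ᶠ[𝓝 t] deriv γ := by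
    have h5 : ∀ᶠ s in 𝓝 t, γ s ∈ W :=
      hγ.continuous.continuousAt.preimage_mem_nhds (hc.W_open.mem_nhds ht)
    filter_upwards [h5] with s hs
    exact (hc.of_TSet hs (hγ.mem_TSet s)).2.2
  have h5 := d5.unique ((hγ.hasDerivAt' t).congr_of_eventuallyEq h4)
  rw [D2_eq] at h5
  set u := P (deriv γ t) with hu
  set z := Chr ψ (P (γ t)) u u + P (deriv (deriv γ) t) with hz
  have h6 : deriv (deriv γ) t = fderiv ℝ ψ (P (γ t)) z + nB ψ (P (γ t)) u u := by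
    rw [← h5, hz, map_add]; abel
  have hT : (γ t, fderiv ℝ ψ (P (γ t)) z) ∈ TSet S := by
    have := hc.toPar.mem_TSet hsub h1 z
    rwa [h2] at this
  have h7 := acc_TSet hγ hT
  rw [h6, inner_add_left, hc.toPar.inner_nB h1, add_zero] at h7
  have h8 : fderiv ℝ ψ (P (γ t)) z = 0 := inner_self_eq_zero.1 h7
  have h9 : z = 0 := hc.toPar.inj _ h1 (h8.trans (map_zero _).symm)
  rw [hz] at h9
  exact (neg_eq_of_add_eq_zero_right h9).symm

/-! ### Covariant differentiation -/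

omit [FiniteDimensional ℝ E] in
theorem hasDerivAt_congr_val {B : Type*} [NormedAddCommGroup B] [NormedSpace ℝ B] {f : ℝ → B}
    {a b : B} {t : ℝ} (h : HasDerivAt f a t) (hab : a = b) : HasDerivAt f b t := hab ▸ h

theorem cov (h : Par S Ω ψ) {c a b : ℝ → ℝ × ℝ} {u a' b' : ℝ × ℝ} {t : ℝ} (hm : c t ∈ Ω)
    (hc : HasDerivAt c u t) (ha : HasDerivAt a a' t) (hb : HasDerivAt b b' t) :
    HasDerivAt (fun s => gB ψ (c s) (a s) (b s))
      (gB ψ (c t) (a' + Chr ψ (c t) u (a t)) (b t) + gB ψ (c t) (a t) (b' + Chr ψ (c t) u (b t)))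
      t := by
  have d1 : HasFDerivAt (gB ψ) (fderiv ℝ (gB ψ) (c t)) (c t) :=
    hasFDerivAt_of_open h.isOpen h.smooth_gB hm
  have d2 : HasDerivAt (fun s => gB ψ (c s)) (fderiv ℝ (gB ψ) (c t) u) t :=
    HasFDerivAt.comp_hasDerivAt (l := gB ψ) (f := c) t d1 hc
  refine hasDerivAt_congr_val ((d2.clm_apply ha).clm_apply hb) ?_
  simp only [map_add, add_apply, h.compat hm]
  ring

theorem dChr_symm (h : Par S Ω ψ) {x : ℝ × ℝ} (hx : x ∈ Ω) (z a b : ℝ × ℝ) :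
    fderiv ℝ (Chr ψ) x z a b = fderiv ℝ (Chr ψ) x z b a := by
  have h1 := h.hasFDerivAt_Chr hx a b
  have h2 := h.hasFDerivAt_Chr hx b a
  have h3 : (fun x => Chr ψ x a b) =ᶠ[𝓝 x] fun x => Chr ψ x b a := by
    filter_upwards [h.isOpen.mem_nhds hx] with y hy
    exact h.Chr_symm hy a b
  have h4 := h1.unique (h2.congr_of_eventuallyEq h3)
  have h5 := congrArg (fun L : (ℝ × ℝ) →L[ℝ] ℝ × ℝ => L z) h4
  simpa using h5

/-- A Jacobi field in a chart. -/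
structure JD (Ω : Set (ℝ × ℝ)) (ψ : ℝ × ℝ → E) (c u v w : ℝ → ℝ × ℝ) (t : ℝ) : Prop where
  mem : c t ∈ Ω
  hc : HasDerivAt c (u t) t
  hu : HasDerivAt u (-(Chr ψ (c t) (u t) (u t))) t
  hv : HasDerivAt v (w t) t
  hw : HasDerivAt w (-(fderiv ℝ (Chr ψ) (c t) (v t) (u t) (u t))
    - (2 : ℝ) • Chr ψ (c t) (u t) (w t)) t

section chart

variable {c u v w : ℝ → ℝ × ℝ} {t : ℝ}

/-- the covariant derivative of the field -/
noncomputable def yC (ψ : ℝ × ℝ → E) (c u v w : ℝ → ℝ × ℝ) (t : ℝ) : ℝ × ℝ :=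
  w t + Chr ψ (c t) (u t) (v t)

/-- **Jacobi equation.** -/
theorem JD.hy (H : JD Ω ψ c u v w t) (h : Par S Ω ψ) :
    ∃ y', HasDerivAt (yC ψ c u v w) y' t ∧
      y' + Chr ψ (c t) (u t) (yC ψ c u v w t)
        = GK ψ (c t) • (gB ψ (c t) (v t) (u t) • u t - gB ψ (c t) (u t) (u t) • v t) := by
  have d1 : HasFDerivAt (Chr ψ) (fderiv ℝ (Chr ψ) (c t)) (c t) :=
    hasFDerivAt_of_open h.isOpen h.smooth_Chr H.mem
  have d2 : HasDerivAt (fun s => Chr ψ (c s)) (fderiv ℝ (Chr ψ) (c t) (u t)) t :=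
    HasFDerivAt.comp_hasDerivAt (l := Chr ψ) (f := c) t d1 H.hc
  have d3 := H.hw.add ((d2.clm_apply H.hu).clm_apply H.hv)
  refine ⟨_, d3, ?_⟩
  rw [← h.gauss H.mem (u t) (v t) (u t)]
  simp only [Rm, yC, map_add, add_apply, map_neg, neg_apply]
  rw [dChr_symm h H.mem (u t) (v t) (u t), h.Chr_symm H.mem (v t) (u t),
    h.Chr_symm H.mem (v t) (Chr ψ (c t) (u t) (u t))]
  module

noncomputable def fC (ψ : ℝ × ℝ → E) (c u v : ℝ → ℝ × ℝ) (t : ℝ) : ℝ :=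
  gB ψ (c t) (v t) (v t) * gB ψ (c t) (u t) (u t) - gB ψ (c t) (v t) (u t) ^ 2

noncomputable def mC (ψ : ℝ × ℝ → E) (c u v w : ℝ → ℝ × ℝ) (t : ℝ) : ℝ :=
  gB ψ (c t) (yC ψ c u v w t) (v t) * gB ψ (c t) (u t) (u t)
    - gB ψ (c t) (v t) (u t) * gB ψ (c t) (yC ψ c u v w t) (u t)

noncomputable def hC (ψ : ℝ × ℝ → E) (c u v w : ℝ → ℝ × ℝ) (t : ℝ) : ℝ :=
  gB ψ (c t) (yC ψ c u v w t) (yC ψ c u v w t) * gB ψ (c t) (u t) (u t)
    - gB ψ (c t) (yC ψ c u v w t) (u t) ^ 2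

omit [FiniteDimensional ℝ E] in
theorem gB_comm (x a b : ℝ × ℝ) : gB ψ x a b = gB ψ x b a := by
  rw [gB_apply, gB_apply, real_inner_comm]

/-- The three equations in a chart. -/
theorem JD.three (H : JD Ω ψ c u v w t) (h : Par S Ω ψ) :
    HasDerivAt (fC ψ c u v) (2 * mC ψ c u v w t) t ∧
    HasDerivAt (mC ψ c u v w)
      (hC ψ c u v w t - GK ψ (c t) * gB ψ (c t) (u t) (u t) * fC ψ c u v t) t ∧
    HasDerivAt (hC ψ c u v w) (-2 * (GK ψ (c t) * gB ψ (c t) (u t) (u t)) * mC ψ c u v w t) t := by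
  obtain ⟨y', hy, hy'⟩ := H.hy h
  have duu := cov h H.mem H.hc H.hu H.hu
  have dvv := cov h H.mem H.hc H.hv H.hv
  have dvu := cov h H.mem H.hc H.hv H.hu
  have dyv := cov h H.mem H.hc hy H.hv
  have dyu := cov h H.mem H.hc hy H.hu
  have dyy := cov h H.mem H.hc hy hy
  rw [hy'] at dyv dyu dyy
  have e1 : w t + Chr ψ (c t) (u t) (v t) = yC ψ c u v w t := rfl
  rw [e1] at dvv dvu dyv
  rw [neg_add_cancel] at duu dvu dyu
  simp only [map_zero, zero_apply, add_zero, map_smul, map_sub, smul_apply,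
    sub_apply, smul_eq_mul] at duu dvu dyu dyv dyy dvv
  rw [gB_comm (ψ := ψ) (c t) (v t) (yC ψ c u v w t)] at dvv
  set guu := gB ψ (c t) (u t) (u t) with hguu
  set gvv := gB ψ (c t) (v t) (v t) with hgvv
  set gvu := gB ψ (c t) (v t) (u t) with hgvu
  set gyv := gB ψ (c t) (yC ψ c u v w t) (v t) with hgyv
  set gyu := gB ψ (c t) (yC ψ c u v w t) (u t) with hgyu
  set gyy := gB ψ (c t) (yC ψ c u v w t) (yC ψ c u v w t) with hgyy
  have c1 : gB ψ (c t) (u t) (v t) = gvu := gB_comm _ _ _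
  have c2 : gB ψ (c t) (u t) (yC ψ c u v w t) = gyu := gB_comm _ _ _
  have c3 : gB ψ (c t) (v t) (yC ψ c u v w t) = gyv := gB_comm _ _ _
  rw [c1] at dyv
  rw [c2, c3] at dyy
  refine ⟨?_, ?_, ?_⟩
  · refine hasDerivAt_congr_val ((dvv.mul duu).sub (dvu.pow 2)) ?_
    rw [← hguu, ← hgvv, ← hgvu]
    simp only [mC, ← hguu, ← hgvu, ← hgyv, ← hgyu]
    push_cast
    ring
  · refine hasDerivAt_congr_val ((dyv.mul duu).sub (dvu.mul dyu)) ?_
    simp only [hC, fC, ← hguu, ← hgvv, ← hgvu, ← hgyv, ← hgyu, ← hgyy]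
    ring
  · refine hasDerivAt_congr_val ((dyy.mul duu).sub (dyu.pow 2)) ?_
    simp only [mC, ← hguu, ← hgvu, ← hgyv, ← hgyu, ← hgyy]
    push_cast
    ring

end chart

/-! ### Two variables -/

section two

variable {B C : Type*} [NormedAddCommGroup B] [NormedSpace ℝ B] [NormedAddCommGroup C]
  [NormedSpace ℝ C]

/-- derivative in the second variable -/
noncomputable def DT (H : ℝ × ℝ → B) (q : ℝ × ℝ) : B := fderiv ℝ H q (0, 1)

/-- derivative in the first variable -/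
noncomputable def DE (H : ℝ × ℝ → B) (q : ℝ × ℝ) : B := fderiv ℝ H q (1, 0)

theorem contDiffAt_DT {H : ℝ × ℝ → B} {q : ℝ × ℝ} (h : ContDiffAt ℝ ∞ H q) :
    ContDiffAt ℝ ∞ (DT H) q :=
  (h.fderiv_right (m := ∞) (by simp)).clm_apply contDiffAt_const

theorem contDiffAt_DE {H : ℝ × ℝ → B} {q : ℝ × ℝ} (h : ContDiffAt ℝ ∞ H q) :
    ContDiffAt ℝ ∞ (DE H) q :=
  (h.fderiv_right (m := ∞) (by simp)).clm_apply contDiffAt_const

theorem hasDerivAt_DT {H : ℝ × ℝ → B} {e t : ℝ} (h : DifferentiableAt ℝ H (e, t)) :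
    HasDerivAt (fun s => H (e, s)) (DT H (e, t)) t := by
  have h1 : HasDerivAt (fun s : ℝ => (e, s)) ((0 : ℝ), (1 : ℝ)) t :=
    (hasDerivAt_const t e).prodMk (hasDerivAt_id t)
  exact HasFDerivAt.comp_hasDerivAt (l := H) (f := fun s : ℝ => (e, s)) t h.hasFDerivAt h1

theorem hasDerivAt_DE {H : ℝ × ℝ → B} {e t : ℝ} (h : DifferentiableAt ℝ H (e, t)) :
    HasDerivAt (fun a => H (a, t)) (DE H (e, t)) e := by
  have h1 : HasDerivAt (fun a : ℝ => (a, t)) ((1 : ℝ), (0 : ℝ)) e :=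
    (hasDerivAt_id e).prodMk (hasDerivAt_const e t)
  exact HasFDerivAt.comp_hasDerivAt (l := H) (f := fun a : ℝ => (a, t)) e h.hasFDerivAt h1

theorem DT_DE {H : ℝ × ℝ → B} {q : ℝ × ℝ} (h : ContDiffAt ℝ ∞ H q) : DT (DE H) q = DE (DT H) q := by
  have h1 : HasFDerivAt (fderiv ℝ H) (fderiv ℝ (fderiv ℝ H) q) q :=
    ((h.fderiv_right (m := ∞) (by simp)).differentiableAt (by simp)).hasFDerivAt
  have h2 : DT (DE H) q = fderiv ℝ (fderiv ℝ H) q (0, 1) (1, 0) := by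
    have h3 := h1.clm_apply (hasFDerivAt_const ((1 : ℝ), (0 : ℝ)) q)
    show fderiv ℝ (fun q => fderiv ℝ H q (1, 0)) q (0, 1) = _
    rw [h3.fderiv]; simp
  have h2' : DE (DT H) q = fderiv ℝ (fderiv ℝ H) q (1, 0) (0, 1) := by
    have h3 := h1.clm_apply (hasFDerivAt_const ((0 : ℝ), (1 : ℝ)) q)
    show fderiv ℝ (fun q => fderiv ℝ H q (0, 1)) q (1, 0) = _
    rw [h3.fderiv]; simp
  rw [h2, h2']
  exact h.isSymmSndFDerivAt (by rw [minSmoothness_of_isRCLikeNormedField]; exact two_le_infty) _ _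

theorem DT_clm (L : B →L[ℝ] C) {H : ℝ × ℝ → B} {q : ℝ × ℝ} (h : DifferentiableAt ℝ H q) :
    DT (fun q => L (H q)) q = L (DT H q) := by
  have h1 : HasFDerivAt (fun q => L (H q)) (L ∘L fderiv ℝ H q) q := L.hasFDerivAt.comp q h.hasFDerivAt
  show fderiv ℝ (fun q => L (H q)) q (0, 1) = _
  rw [h1.fderiv]; rfl

theorem DE_clm (L : B →L[ℝ] C) {H : ℝ × ℝ → B} {q : ℝ × ℝ} (h : DifferentiableAt ℝ H q) :
    DE (fun q => L (H q)) q = L (DE H q) := by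
  have h1 : HasFDerivAt (fun q => L (H q)) (L ∘L fderiv ℝ H q) q := L.hasFDerivAt.comp q h.hasFDerivAt
  show fderiv ℝ (fun q => L (H q)) q (1, 0) = _
  rw [h1.fderiv]; rfl

end two

end Pool.Agent.H77.PG
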