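import Pool.Agent.H77.PG.Sol
import Pool.Agent.H91.GE.Finite

/-!
# A secure surface has no point of positive curvature if its curvature is locally constant
-/

set_option autoImplicit false

namespace Pool.Agent.H77.PG

open scoped InnerProductSpace Topology ContDiff
open Set Filter Pool.Agent.H91.GE

variable {E F : Type*} [NormedAddCommGroup E] [InnerProductSpace ℝ E] [FiniteDimensional ℝ E]
  [NormedAddCommGroup F] [InnerProductSpace ℝ F] [FiniteDimensional ℝ F]
  {S : Set E} {A : E × E → E} {K K₂ : NNReal} {Φ : ℝ → E × E → E × E} {G : ℝ → ℝ → E}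

/-- `Geo` depends smoothly on the initial velocity. -/
theorem contDiffAt_Geo (h : GFlow F S A K K₂ Φ) {B : Type*} [NormedAddCommGroup B]
    [NormedSpace ℝ B] {q : E} {u : B → E} {b : B} (hu : ContDiffAt ℝ ∞ u b)
    (hT : ∀ b, (q, u b) ∈ TSet S) (t : ℝ) :
    ContDiffAt ℝ ∞ (fun x : B × ℝ => Geo Φ q (u x.1) x.2) (b, t) := by
  set M : ℝ := ‖u b‖ + 1 with hM
  have hM0 : 0 < M := by positivity
  have c2 : ContDiffAt ℝ ∞ (fun x : B × ℝ => u x.1) (b, t) :=
    ContDiffAt.comp (b, t) (g := u) (f := fun x : B × ℝ => x.1) hu contDiffAt_fst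
  have c3 : ContDiffAt ℝ ∞ (fun x : B × ℝ => (M * x.2, (q, M⁻¹ • u x.1))) (b, t) :=
    (contDiffAt_const.mul contDiffAt_snd).prodMk (contDiffAt_const.prodMk (contDiffAt_const.smul c2))
  have c4 : ContDiffAt ℝ ∞ (fun x : B × ℝ => Φ (M * x.2) (q, M⁻¹ • u x.1)) (b, t) :=
    ContDiffAt.comp (b, t) h.contDiff.contDiffAt c3
  have hev : ∀ᶠ y : B × ℝ in 𝓝 (b, t), ‖u y.1‖ < 2 * M := by
    refine c2.continuousAt.norm.eventually_lt_const ?_
    show ‖u b‖ < 2 * M
    have := norm_nonneg (u b)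
    rw [hM]; linarith
  refine (contDiffAt_fst.comp (b, t) c4).congr_of_eventuallyEq ?_
  filter_upwards [hev] with y hy
  exact (h.Geo_eq (hT y.1) hM0 hy.le y.2).1

omit [FiniteDimensional ℝ E] in
/-- the mixed derivative -/
theorem Fam.hasDerivAt_swap (hF : Fam S G) (t : ℝ) :
    HasDerivAt (fun e => deriv (G e) t) (deriv (VF G) t) 0 := by
  have h2 : HasDerivAt (fun e => DT (HH G) (e, t)) (DE (DT (HH G)) (0, t)) 0 :=
    hasDerivAt_DE ((contDiffAt_DT (hF.cd t)).differentiableAt (by simp))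
  rw [hF.deriv_VF]
  refine h2.congr_of_eventuallyEq ?_
  have tend : Tendsto (fun e : ℝ => (e, t)) (𝓝 0) (𝓝 ((0 : ℝ), t)) := by
    have : Continuous fun e : ℝ => (e, t) := by fun_prop
    exact this.tendsto 0
  filter_upwards [tend.eventually (hF.ev t)] with e he
  exact he.2.1

/-- Families of geodesics through one point. -/
theorem fam_of (h : GFlow F S A K K₂ Φ) {q : E} {u : ℝ → E} (hu : ContDiff ℝ ∞ u)
    (hT : ∀ e, (q, u e) ∈ TSet S) : Fam S (fun e t => Geo Φ q (u e) t) ∧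
      VF (fun e t => Geo Φ q (u e) t) 0 = 0 ∧
      deriv (VF (fun e t => Geo Φ q (u e) t)) 0 = deriv u 0 := by
  have hF : Fam S (fun e t => Geo Φ q (u e) t) :=
    ⟨fun t => contDiffAt_Geo h hu.contDiffAt hT t, Eventually.of_forall fun e => (h.isGeo_Geo (hT e)).1⟩
  refine ⟨hF, ?_, ?_⟩
  · have h1 : (fun e => Geo Φ q (u e) 0) = fun _ => q := funext fun e => (h.isGeo_Geo (hT e)).2.1
    show deriv (fun e => Geo Φ q (u e) 0) 0 = 0
    rw [h1, deriv_const]
  · have h2 := hF.hasDerivAt_swap 0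
    have h3 : (fun e => deriv (fun t => Geo Φ q (u e) t) 0) = u :=
      funext fun e => (h.isGeo_Geo (hT e)).2.2
    rw [h3] at h2
    exact h2.deriv.symm

/-- **Positive curvature.** -/
theorem no_pos (hdim : Module.finrank ℝ E = Module.finrank ℝ F + 2) (hS : IsCompact S)
    (hsub : IsSub F S) (hsec : Secure S) (hd : Flat1 S) {X : E} (hX : X ∈ S) {k₀ : ℝ}
    (hk : CurvAt S X k₀) : ¬ 0 < k₀ := by
  intro hpos
  obtain ⟨A, K, K₂, Φ, h⟩ := exists_GFlow hS hsub
  obtain ⟨U, hU, f, hf⟩ := hsub X hX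
  obtain ⟨e, ν, he, hν, he1, hν1, heν⟩ := exists_orthonormal_ker hdim (hf.surj X hU)
  set v : ℝ → E := fun θ => Real.cos θ • e + Real.sin θ • ν with hv
  have hvT : ∀ θ, (X, v θ) ∈ TSet S := fun θ => (mem_TSet_iff hf hU).2 ⟨hX, by
    simp only [hv, map_add, map_smul, he, hν, smul_zero, add_zero]⟩
  have hvc : ContDiff ℝ ∞ v :=
    (Real.contDiff_cos.smul contDiff_const).add (Real.contDiff_sin.smul contDiff_const)
  have hvd : ∀ θ, HasDerivAt v (-Real.sin θ • e + Real.cos θ • ν) θ := fun θ =>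
    ((Real.hasDerivAt_cos θ).smul_const e).add ((Real.hasDerivAt_sin θ).smul_const ν)
  have hνe : ⟪ν, e⟫_ℝ = 0 := by rw [real_inner_comm]; exact heν
  have hee : ⟪e, e⟫_ℝ = 1 := by rw [real_inner_self_eq_norm_sq, he1]; norm_num
  have hνν : ⟪ν, ν⟫_ℝ = 1 := by rw [real_inner_self_eq_norm_sq, hν1]; norm_num
  have hi : ∀ a b c d : ℝ, ⟪a • e + b • ν, c • e + d • ν⟫_ℝ = a * c + b * d := by
    intro a b c d
    simp only [inner_add_left, inner_add_right, inner_smul_left, inner_smul_right,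
      RCLike.conj_to_real, heν, hνe, hee, hνν]
    ring
  set om := √k₀ with hom
  have hom0 : 0 < om := Real.sqrt_pos.2 hpos
  set L := Real.pi / om with hL
  have hL0 : 0 < L := div_pos Real.pi_pos hom0
  -- the end point does not depend on the angle
  have hend : ∀ θ, HasDerivAt (fun θ => Geo Φ X (v θ) L) 0 θ := by
    intro θ
    set u : ℝ → E := fun s => v (θ + s) with hu
    have huc : ContDiff ℝ ∞ u := hvc.comp (contDiff_const.add contDiff_id)
    obtain ⟨hF, hV0, hV'⟩ := fam_of h huc (fun s => hvT (θ + s))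
    set G : ℝ → ℝ → E := fun s t => Geo Φ X (u s) t with hG
    have hud : deriv u 0 = -Real.sin θ • e + Real.cos θ • ν := by
      have h1 : HasDerivAt u (-Real.sin (θ + 0) • e + Real.cos (θ + 0) • ν) 0 := by
        have h2 : HasDerivAt (fun s : ℝ => θ + s) 1 0 := (hasDerivAt_id (0 : ℝ)).const_add θ
        have h3 := (hvd (θ + 0)).scomp (0 : ℝ) h2
        rw [one_smul] at h3
        exact h3
      rw [h1.deriv, add_zero]
    have hG0 : deriv (G 0) 0 = v θ := by
      have h1 := (h.isGeo_Geo (hvT (θ + 0))).2.2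
      rw [add_zero] at h1
      show deriv (Geo Φ X (v (θ + 0))) 0 = v θ
      rw [add_zero]; exact h1
    have hG00 : G 0 0 = X := (h.isGeo_Geo (hvT (θ + 0))).2.1
    rw [hud] at hV'
    have i1 : ⟪deriv (G 0) 0, deriv (G 0) 0⟫_ℝ = 1 := by
      rw [hG0, hv]
      show ⟪Real.cos θ • e + Real.sin θ • ν, Real.cos θ • e + Real.sin θ • ν⟫_ℝ = 1
      rw [hi]
      have := Real.sin_sq_add_cos_sq θ
      nlinarith
    have i2 : ⟪deriv (VF G) 0, deriv (G 0) 0⟫_ℝ = 0 := by
      rw [hG0, hV', hv]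
      show ⟪-Real.sin θ • e + Real.cos θ • ν, Real.cos θ • e + Real.sin θ • ν⟫_ℝ = 0
      rw [hi]; ring
    obtain ⟨k, hk'⟩ := curv_const hdim hsub hd hF.geo0
    have hkk : k = k₀ := by
      have h1 := hk' 0
      rw [hG00] at h1
      exact h1.unique hdim hsub hX hk
    rw [hkk] at hk'
    have hsol := hF.sol_pos hdim hsub hk' hV0 hom0.ne' (by
      rw [i1, mul_one]; exact Real.sq_sqrt hpos.le) L
    have hsin : Real.sin (om * L) = 0 := by
      have : om * L = Real.pi := by rw [hL]; field_simp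
      rw [this, Real.sin_pi]
    have hgl := (hF.gauss_lemma hsub L).2
    rw [hV0, inner_zero_left, i2, mul_zero, add_zero] at hgl
    rw [hsin, zero_div, jf, i1, hgl] at hsol
    have hVL : VF G L = 0 := by
      have h1 : ⟪VF G L, VF G L⟫_ℝ = 0 := by nlinarith [hsol]
      exact inner_self_eq_zero.1 h1
    have h1 := hF.VF_hasDerivAt L
    rw [hVL] at h1
    -- shift
    have h2 : HasDerivAt (fun s : ℝ => s - θ) 1 θ := by
      simpa using (hasDerivAt_id θ).sub_const θ
    have h3 : HasDerivAt (fun e => G e L) 0 ((fun s : ℝ => s - θ) θ) := by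
      show HasDerivAt (fun e => G e L) 0 (θ - θ)
      rw [sub_self]; exact h1
    have h4 := HasDerivAt.scomp (h := fun s : ℝ => s - θ) (g₁ := fun e => G e L) θ h3 h2
    rw [smul_zero] at h4
    have h5 : ((fun e => G e L) ∘ fun s : ℝ => s - θ) = fun θ => Geo Φ X (v θ) L := by
      funext s
      show Geo Φ X (v (θ + (s - θ))) L = Geo Φ X (v s) L
      rw [add_sub_cancel]
    rw [h5] at h4
    exact h4
  have hconst : ∀ θ, Geo Φ X (v θ) L = Geo Φ X (v 0) L := fun θ =>
    is_const_of_deriv_eq_zero (f := fun θ => Geo Φ X (v θ) L) (fun s => (hend s).differentiableAt)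
      (fun s => (hend s).deriv) θ 0
  have hYS : Geo Φ X (v 0) L ∈ S := (h.isGeo_Geo (hvT 0)).1.mem L
  have hfin := finite_geodesics hS hsub hsec hX hYS L
  have hvn : ∀ θ, ‖v θ‖ = 1 := by
    intro θ
    have h1 : ⟪v θ, v θ⟫_ℝ = 1 := by
      rw [hv]
      show ⟪Real.cos θ • e + Real.sin θ • ν, Real.cos θ • e + Real.sin θ • ν⟫_ℝ = 1
      rw [hi]
      have := Real.sin_sq_add_cos_sq θ
      nlinarith
    rw [real_inner_self_eq_norm_sq] at h1
    have h2 := norm_nonneg (v θ)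
    nlinarith [sq_nonneg (‖v θ‖ - 1)]
  have hinj : Set.InjOn (fun θ => Geo Φ X (L • v θ)) (Icc 0 Real.pi) := by
    intro θ hθ θ' hθ' heq
    have h1 : deriv (Geo Φ X (L • v θ)) 0 = deriv (Geo Φ X (L • v θ')) 0 := by
      have heq' : Geo Φ X (L • v θ) = Geo Φ X (L • v θ') := heq
      rw [heq']
    rw [(h.isGeo_Geo (scale_TSet (hvT θ) h.sub L)).2.2,
      (h.isGeo_Geo (scale_TSet (hvT θ') h.sub L)).2.2] at h1
    have h2 : v θ = v θ' := smul_right_injective E hL0.ne' h1
    have h3 : ∀ θ, ⟪v θ, e⟫_ℝ = Real.cos θ := by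
      intro θ
      have := hi (Real.cos θ) (Real.sin θ) 1 0
      rw [one_smul, zero_smul, add_zero] at this
      rw [show v θ = Real.cos θ • e + Real.sin θ • ν from rfl, this]; ring
    have h4 : Real.cos θ = Real.cos θ' := by rw [← h3, ← h3, h2]
    exact Real.injOn_cos hθ hθ' h4
  have hinf : (Icc (0 : ℝ) Real.pi).Infinite := Icc_infinite Real.pi_pos
  refine (hinf.image hinj) (hfin.subset ?_)
  rintro _ ⟨θ, -, rfl⟩
  obtain ⟨g1, g2, g3⟩ := h.isGeo_Geo (scale_TSet (hvT θ) h.sub L)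
  refine ⟨g1, g2, ?_, ?_, ?_⟩
  · show Geo Φ X (L • v θ) 1 = _
    rw [h.Geo_smul (hvT θ), mul_one]
    exact hconst θ
  · show deriv (Geo Φ X (L • v θ)) 0 ≠ 0
    rw [g3]
    refine smul_ne_zero hL0.ne' fun h0 => ?_
    have := hvn θ
    rw [h0, norm_zero] at this
    exact zero_ne_one this
  · show ‖deriv (Geo Φ X (L • v θ)) 0‖ ≤ L
    rw [g3, norm_smul, hvn θ, mul_one, Real.norm_of_nonneg hL0.le]

end Pool.Agent.H77.PG
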