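import Pool.Agent.H77.PG.Vary

/-!
# Solutions of the Jacobi equation which vanish at `0`
-/

set_option autoImplicit false

namespace Pool.Agent.H77.PG

open scoped InnerProductSpace Topology ContDiff
open Set Filter Pool.Agent.H91.GE

/-- a function with derivative zero everywhere is constant -/
theorem const_of {f : ℝ → ℝ} (h : ∀ t, HasDerivAt f 0 t) (t : ℝ) : f t = f 0 :=
  is_const_of_deriv_eq_zero (fun s => (h s).differentiableAt) (fun s => (h s).deriv) t 0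

theorem ode3 {f m h sn cs : ℝ → ℝ} {k : ℝ} (hf : ∀ t, HasDerivAt f (2 * m t) t)
    (hm : ∀ t, HasDerivAt m (h t - k * f t) t) (hh : ∀ t, HasDerivAt h (-2 * k * m t) t)
    (hsn : ∀ t, HasDerivAt sn (cs t) t) (hcs : ∀ t, HasDerivAt cs (-k * sn t) t)
    (s0 : sn 0 = 0) (c0 : cs 0 = 1) (f0 : f 0 = 0) (m0 : m 0 = 0) (t : ℝ) :
    f t = h 0 * sn t ^ 2 := by
  have h1 : cs t ^ 2 + k * sn t ^ 2 = 1 := by
    have := const_of (f := fun t => cs t ^ 2 + k * sn t ^ 2) (fun t =>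
      hasDerivAt_congr_val (((hcs t).pow 2).add (((hsn t).pow 2).const_mul k))
        (by push_cast; ring)) t
    simp only [s0, c0] at this
    rw [this]; norm_num
  have h2 : cs t ^ 2 * f t - 2 * (sn t * cs t) * m t + sn t ^ 2 * h t = 0 := by
    have := const_of (f := fun t => cs t ^ 2 * f t - 2 * (sn t * cs t) * m t + sn t ^ 2 * h t)
      (fun t => hasDerivAt_congr_val (((((hcs t).pow 2).mul (hf t)).sub
        ((((hsn t).mul (hcs t)).const_mul 2).mul (hm t))).add (((hsn t).pow 2).mul (hh t)))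
        (by simp only [Pi.mul_apply, Pi.pow_apply, Pi.sub_apply]; push_cast; ring)) t
    simp only [s0, c0, f0, m0] at this
    rw [this]; norm_num
  have h3 : (cs t ^ 2 - k * sn t ^ 2) * m t + k * (sn t * cs t) * f t - sn t * cs t * h t = 0 := by
    have := const_of (f := fun t => (cs t ^ 2 - k * sn t ^ 2) * m t + k * (sn t * cs t) * f t
      - sn t * cs t * h t)
      (fun t => hasDerivAt_congr_val ((((((hcs t).pow 2).sub (((hsn t).pow 2).const_mul k)).mul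
        (hm t)).add ((((hsn t).mul (hcs t)).const_mul k).mul (hf t))).sub
        (((hsn t).mul (hcs t)).mul (hh t)))
        (by simp only [Pi.mul_apply, Pi.pow_apply, Pi.sub_apply]; push_cast; ring)) t
    simp only [s0, c0, f0, m0] at this
    rw [this]; norm_num
  have h4 : cs t ^ 2 * h t + k ^ 2 * sn t ^ 2 * f t + 2 * k * (sn t * cs t) * m t = h 0 := by
    have := const_of (f := fun t => cs t ^ 2 * h t + k ^ 2 * sn t ^ 2 * f t
      + 2 * k * (sn t * cs t) * m t)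
      (fun t => hasDerivAt_congr_val (((((hcs t).pow 2).mul (hh t)).add
        ((((hsn t).pow 2).const_mul (k ^ 2)).mul (hf t))).add
        ((((hsn t).mul (hcs t)).const_mul (2 * k)).mul (hm t)))
        (by simp only [Pi.mul_apply, Pi.pow_apply, Pi.sub_apply]; push_cast; ring)) t
    simp only [s0, c0, f0, m0] at this
    rw [this]; norm_num
  have h5 : f t = (cs t ^ 2 + k * sn t ^ 2) ^ 2 * f t := by rw [h1]; ring
  rw [h5, ← h4]
  linear_combination cs t ^ 2 * h2 + 2 * sn t * cs t * h3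

variable {E F : Type*} [NormedAddCommGroup E] [InnerProductSpace ℝ E] [FiniteDimensional ℝ E]
  [NormedAddCommGroup F] [InnerProductSpace ℝ F] [FiniteDimensional ℝ F]
  {S : Set E} {G : ℝ → ℝ → E}

/-- **Gauss lemma.** -/
theorem Fam.gauss_lemma (hsub : IsSub F S) (hF : Fam S G) (t : ℝ) :
    ⟪deriv (VF G) t, deriv (G 0) t⟫_ℝ = ⟪deriv (VF G) 0, deriv (G 0) 0⟫_ℝ ∧
    ⟪VF G t, deriv (G 0) t⟫_ℝ
      = ⟪VF G 0, deriv (G 0) 0⟫_ℝ + t * ⟪deriv (VF G) 0, deriv (G 0) 0⟫_ℝ := by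
  have g0 := hF.geo0
  have tend : ∀ t : ℝ, Tendsto (fun e : ℝ => (e, t)) (𝓝 0) (𝓝 ((0 : ℝ), t)) := by
    intro t
    have : Continuous fun e : ℝ => (e, t) := by fun_prop
    exact this.tendsto 0
  have h1 : ∀ t, HasDerivAt (fun e => ⟪deriv (G e) t, deriv (G e) t⟫_ℝ)
      (2 * ⟪deriv (VF G) t, deriv (G 0) t⟫_ℝ) 0 := by
    intro t
    have h2 : HasDerivAt (fun e => DT (HH G) (e, t)) (DE (DT (HH G)) (0, t)) 0 :=
      hasDerivAt_DE ((contDiffAt_DT (hF.cd t)).differentiableAt (by simp))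
    have h3 := h2.inner ℝ h2
    have h4 : (fun e => ⟪deriv (G e) t, deriv (G e) t⟫_ℝ) =ᶠ[𝓝 0]
        fun e => ⟪DT (HH G) (e, t), DT (HH G) (e, t)⟫_ℝ := by
      filter_upwards [(tend t).eventually (hF.ev t)] with e he
      rw [he.2.1]
    refine hasDerivAt_congr_val (h3.congr_of_eventuallyEq h4) ?_
    rw [(hF.deriv_eq t).1, hF.deriv_VF, real_inner_comm (DE (DT (HH G)) (0, t))]
    ring
  have h5 : ∀ t, ⟪deriv (VF G) t, deriv (G 0) t⟫_ℝ = ⟪deriv (VF G) 0, deriv (G 0) 0⟫_ℝ := by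
    intro t
    have h6 : (fun e => ⟪deriv (G e) t, deriv (G e) t⟫_ℝ) =ᶠ[𝓝 0]
        fun e => ⟪deriv (G e) 0, deriv (G e) 0⟫_ℝ := by
      filter_upwards [hF.geo] with e he
      rw [real_inner_self_eq_norm_sq, real_inner_self_eq_norm_sq, he.speed t 0]
    have h7 := (h1 t).unique ((h1 0).congr_of_eventuallyEq h6)
    linarith
  refine ⟨h5 t, ?_⟩
  have h6 : ∀ t, HasDerivAt (fun t => ⟪VF G t, deriv (G 0) t⟫_ℝ
      - t * ⟪deriv (VF G) 0, deriv (G 0) 0⟫_ℝ) 0 t := by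
    intro t
    have h7 : HasDerivAt (VF G) (deriv (VF G) t) t :=
      (hF.smooth_VF.differentiable (by simp) t).hasDerivAt
    have h8 := (h7.inner ℝ (g0.hasDerivAt' t)).sub
      ((hasDerivAt_id t).mul_const ⟪deriv (VF G) 0, deriv (G 0) 0⟫_ℝ)
    refine hasDerivAt_congr_val h8 ?_
    have h9 : ⟪VF G t, deriv (deriv (G 0)) t⟫_ℝ = 0 := by
      rw [real_inner_comm]; exact acc_TSet g0 (hF.VF_TSet hsub t)
    rw [h9, h5 t]; ring
  have h7 := const_of h6 t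
  linarith

/-- the constant -/
noncomputable def C0 (G : ℝ → ℝ → E) : ℝ :=
  ⟪deriv (VF G) 0, deriv (VF G) 0⟫_ℝ * ⟪deriv (G 0) 0, deriv (G 0) 0⟫_ℝ
    - ⟪deriv (VF G) 0, deriv (G 0) 0⟫_ℝ ^ 2

omit [FiniteDimensional ℝ E] in
theorem C0_pos (h0 : deriv (G 0) 0 ≠ 0)
    (hp : ∀ c : ℝ, deriv (VF G) 0 ≠ c • deriv (G 0) 0) : 0 < C0 G := by
  set a := deriv (VF G) 0 with ha
  set b := deriv (G 0) 0 with hb
  have hbb : 0 < ⟪b, b⟫_ℝ := real_inner_self_pos.2 h0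
  have h2 : a - (⟪a, b⟫_ℝ / ⟪b, b⟫_ℝ) • b ≠ 0 := fun h => hp _ (sub_eq_zero.1 h)
  have h3 := real_inner_self_pos.2 h2
  have h4 : ⟪a - (⟪a, b⟫_ℝ / ⟪b, b⟫_ℝ) • b, a - (⟪a, b⟫_ℝ / ⟪b, b⟫_ℝ) • b⟫_ℝ
      = C0 G / ⟪b, b⟫_ℝ := by
    rw [C0, ← ha, ← hb]
    simp only [inner_sub_left, inner_sub_right, inner_smul_left, inner_smul_right,
      RCLike.conj_to_real, real_inner_comm a b]
    field_simp
    ring
  rw [h4] at h3
  exact (div_pos_iff_of_pos_right hbb).1 h3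

section sol

variable (hdim : Module.finrank ℝ E = Module.finrank ℝ F + 2) (hsub : IsSub F S) (hF : Fam S G)
  {k₀ : ℝ} (hk : ∀ t, CurvAt S (G 0 t) k₀) (hV : VF G 0 = 0)
include hdim hsub hF hk hV

theorem Fam.sol {sn cs : ℝ → ℝ} (hsn : ∀ t, HasDerivAt sn (cs t) t)
    (hcs : ∀ t, HasDerivAt cs (-(k₀ * ⟪deriv (G 0) 0, deriv (G 0) 0⟫_ℝ) * sn t) t)
    (s0 : sn 0 = 0) (c0 : cs 0 = 1) (t : ℝ) : jf G t = C0 G * sn t ^ 2 := by
  obtain ⟨h, h1, h2, h3, h4⟩ := hF.jacobi hdim hsub hk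
  have z1 : jf G 0 = 0 := by
    simp only [jf, hV, inner_zero_left]; ring
  have z2 : jm G 0 = 0 := by
    simp only [jm, hV, inner_zero_left, inner_zero_right]; ring
  have h5 := ode3 (k := k₀ * ⟪deriv (G 0) 0, deriv (G 0) 0⟫_ℝ) h1 h2
    (fun t => hasDerivAt_congr_val (h3 t) (by ring)) hsn hcs s0 c0 z1 z2 t
  rw [h5, h4 0 hV]
  rfl

/-- positive curvature -/
theorem Fam.sol_pos {om : ℝ} (h0 : om ≠ 0)
    (hom : om ^ 2 = k₀ * ⟪deriv (G 0) 0, deriv (G 0) 0⟫_ℝ) (t : ℝ) :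
    jf G t = C0 G * (Real.sin (om * t) / om) ^ 2 := by
  have hl : ∀ t : ℝ, HasDerivAt (fun t : ℝ => om * t) om t := fun t => by
    simpa using (hasDerivAt_id t).const_mul om
  refine hF.sol hdim hsub hk hV (sn := fun t => Real.sin (om * t) / om)
    (cs := fun t => Real.cos (om * t)) (fun t => ?_) (fun t => ?_) (by simp) (by simp) t
  · refine hasDerivAt_congr_val (((hl t).sin).div_const om) ?_
    field_simp
  · refine hasDerivAt_congr_val ((hl t).cos) ?_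
    rw [← hom]
    field_simp

/-- negative curvature -/
theorem Fam.sol_neg {ka : ℝ} (h0 : ka ≠ 0)
    (hka : ka ^ 2 = -(k₀ * ⟪deriv (G 0) 0, deriv (G 0) 0⟫_ℝ)) (t : ℝ) :
    jf G t = C0 G * (Real.sinh (ka * t) / ka) ^ 2 := by
  have hl : ∀ t : ℝ, HasDerivAt (fun t : ℝ => ka * t) ka t := fun t => by
    simpa using (hasDerivAt_id t).const_mul ka
  refine hF.sol hdim hsub hk hV (sn := fun t => Real.sinh (ka * t) / ka)
    (cs := fun t => Real.cosh (ka * t)) (fun t => ?_) (fun t => ?_) (by simp) (by simp) t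
  · refine hasDerivAt_congr_val (((hl t).sinh).div_const ka) ?_
    field_simp
  · refine hasDerivAt_congr_val ((hl t).cosh) ?_
    rw [← hka]
    field_simp

/-- curvature zero -/
theorem Fam.sol_zero (h0 : k₀ = 0) (t : ℝ) : jf G t = C0 G * t ^ 2 := by
  refine hF.sol hdim hsub hk hV (sn := fun t => t) (cs := fun _ => 1)
    (fun t => hasDerivAt_id t) (fun t => ?_) rfl rfl t
  refine hasDerivAt_congr_val (hasDerivAt_const t 1) ?_
  rw [h0]; ring

/-- The form used for negative curvature. -/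
theorem Fam.sol_neg_ratio (hk0 : k₀ < 0) (t : ℝ) :
    jf G t * Real.sinh (√(-k₀) * ‖deriv (G 0) 0‖) ^ 2
      = jf G 1 * Real.sinh (√(-k₀) * ‖deriv (G 0) 0‖ * t) ^ 2 := by
  by_cases h0 : deriv (G 0) 0 = 0
  · have h1 : √(-k₀) * ‖deriv (G 0) 0‖ = 0 := by rw [h0, norm_zero, mul_zero]
    rw [h1]; simp
  · have hpos : 0 < √(-k₀) * ‖deriv (G 0) 0‖ :=
      mul_pos (Real.sqrt_pos.2 (by linarith)) (norm_pos_iff.2 h0)
    have hsq : (√(-k₀) * ‖deriv (G 0) 0‖) ^ 2 = -(k₀ * ⟪deriv (G 0) 0, deriv (G 0) 0⟫_ℝ) := by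
      rw [mul_pow, Real.sq_sqrt (by linarith), real_inner_self_eq_norm_sq]; ring
    rw [hF.sol_neg hdim hsub hk hV hpos.ne' hsq t, hF.sol_neg hdim hsub hk hV hpos.ne' hsq 1,
      mul_one]
    field_simp

end sol

end Pool.Agent.H77.PG
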