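import Pool.Agent.H77.PG.Jac

/-!
# Families of geodesics on a surface: the Jacobi equation
-/

set_option autoImplicit false

namespace Pool.Agent.H77.PG

open scoped InnerProductSpace Topology ContDiff
open Set Filter Pool.Agent.H91.GE

variable {E F : Type*} [NormedAddCommGroup E] [InnerProductSpace ℝ E] [FiniteDimensional ℝ E]
  [NormedAddCommGroup F] [InnerProductSpace ℝ F] [FiniteDimensional ℝ F]
  {S : Set E} {Ω : Set (ℝ × ℝ)} {ψ : ℝ × ℝ → E} {P : E →L[ℝ] ℝ × ℝ} {W : Set E}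
  {G : ℝ → ℝ → E}

/-- the family as a map of two variables -/
def HH (G : ℝ → ℝ → E) (q : ℝ × ℝ) : E := G q.1 q.2

/-- A smooth family of geodesics. -/
structure Fam (S : Set E) (G : ℝ → ℝ → E) : Prop where
  smooth : ∀ t, ContDiffAt ℝ ∞ (fun q : ℝ × ℝ => G q.1 q.2) (0, t)
  geo : ∀ᶠ e in 𝓝 (0 : ℝ), IsGeo S (G e)

/-- the variation field -/
noncomputable def VF (G : ℝ → ℝ → E) (t : ℝ) : E := deriv (fun e => G e t) 0

theorem ev_deriv {B : Type*} [NormedAddCommGroup B] [NormedSpace ℝ B] {H : ℝ × ℝ → B}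
    {q₀ : ℝ × ℝ} (h : ContDiffAt ℝ ∞ H q₀) : ∀ᶠ q in 𝓝 q₀,
      deriv (fun s => H (q.1, s)) q.2 = DT H q ∧
      deriv (deriv (fun s => H (q.1, s))) q.2 = DT (DT H) q := by
  have d : ∀ {H : ℝ × ℝ → B}, ContDiffAt ℝ ∞ H q₀ → ∀ᶠ q in 𝓝 q₀, DifferentiableAt ℝ H q := by
    intro H h
    have h1 : ContDiffAt ℝ 1 H q₀ := h.of_le (by exact_mod_cast le_top)
    exact (h1.eventually (by decide)).mono fun q hq => hq.differentiableAt (by simp)
  have ev1 := d h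
  have ev2 := d (contDiffAt_DT h)
  filter_upwards [ev1.eventually_nhds, ev2] with q h1 h2
  have h3 : Tendsto (fun s : ℝ => (q.1, s)) (𝓝 q.2) (𝓝 q) := by
    have : Continuous fun s : ℝ => (q.1, s) := by fun_prop
    exact this.tendsto q.2
  have h4 : deriv (fun s => H (q.1, s)) =ᶠ[𝓝 q.2] fun s => DT H (q.1, s) := by
    filter_upwards [h3.eventually h1] with s hs
    exact (hasDerivAt_DT hs).deriv
  refine ⟨h4.self_of_nhds, ?_⟩
  rw [h4.deriv_eq]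
  exact (hasDerivAt_DT h2).deriv

section fam

variable (hF : Fam S G)
include hF

omit [FiniteDimensional ℝ E] in
theorem Fam.cd (t : ℝ) : ContDiffAt ℝ ∞ (HH G) (0, t) := hF.smooth t

omit [FiniteDimensional ℝ E] in
theorem Fam.geo0 : IsGeo S (G 0) := hF.geo.self_of_nhds

omit [FiniteDimensional ℝ E] in
theorem Fam.deriv_eq (t : ℝ) : deriv (G 0) t = DT (HH G) (0, t) ∧
    deriv (deriv (G 0)) t = DT (DT (HH G)) (0, t) :=
  (ev_deriv (hF.cd t)).self_of_nhds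

omit [FiniteDimensional ℝ E] in
theorem Fam.VF_hasDerivAt (t : ℝ) : HasDerivAt (fun e => G e t) (VF G t) 0 := by
  have h1 := hasDerivAt_DE (e := 0) (t := t) ((hF.cd t).differentiableAt (by simp))
  have h2 : VF G t = DE (HH G) (0, t) := h1.deriv
  rw [h2]; exact h1

omit [FiniteDimensional ℝ E] in
theorem Fam.VF_eq : VF G = fun t => DE (HH G) (0, t) := by
  funext t
  exact (hasDerivAt_DE (e := 0) (t := t) ((hF.cd t).differentiableAt (by simp))).deriv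

omit [FiniteDimensional ℝ E] in
theorem Fam.hasDerivAt_VF (t : ℝ) : HasDerivAt (VF G) (DE (DT (HH G)) (0, t)) t := by
  rw [hF.VF_eq, ← DT_DE (hF.cd t)]
  exact hasDerivAt_DT ((contDiffAt_DE (hF.cd t)).differentiableAt (by simp))

omit [FiniteDimensional ℝ E] in
theorem Fam.deriv_VF : deriv (VF G) = fun t => DE (DT (HH G)) (0, t) :=
  funext fun t => (hF.hasDerivAt_VF t).deriv

omit [FiniteDimensional ℝ E] in
theorem Fam.hasDerivAt_VF' (t : ℝ) :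
    HasDerivAt (deriv (VF G)) (DE (DT (DT (HH G))) (0, t)) t := by
  rw [hF.deriv_VF, ← DT_DE (contDiffAt_DT (hF.cd t))]
  exact hasDerivAt_DT ((contDiffAt_DE (contDiffAt_DT (hF.cd t))).differentiableAt (by simp))

omit [FiniteDimensional ℝ E] in
theorem Fam.smooth_VF : ContDiff ℝ ∞ (VF G) := by
  rw [hF.VF_eq, contDiff_iff_contDiffAt]
  intro t
  have h1 : ContDiffAt ℝ ∞ (fun s : ℝ => ((0 : ℝ), s)) t := contDiffAt_const.prodMk contDiffAt_id
  exact ContDiffAt.comp t (g := DE (HH G)) (f := fun s : ℝ => ((0 : ℝ), s))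
    (contDiffAt_DE (hF.cd t)) h1

omit [FiniteDimensional ℝ E] in
/-- near `(0, t)` the family consists of geodesics and its derivatives are as expected -/
theorem Fam.ev (t : ℝ) : ∀ᶠ q : ℝ × ℝ in 𝓝 (0, t), IsGeo S (G q.1) ∧
    deriv (G q.1) q.2 = DT (HH G) q ∧ deriv (deriv (G q.1)) q.2 = DT (DT (HH G)) q := by
  have h1 : Tendsto (fun q : ℝ × ℝ => q.1) (𝓝 (0, t)) (𝓝 0) := continuous_fst.tendsto (0, t)
  filter_upwards [h1.eventually hF.geo, ev_deriv (hF.cd t)] with q g1 g2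
  exact ⟨g1, g2⟩

theorem Fam.VF_TSet (hsub : IsSub F S) (t : ℝ) : (G 0 t, VF G t) ∈ TSet S := by
  rw [hF.VF_eq]
  refine mem_TSet_of_map (Z := HH G) (b₀ := ((0 : ℝ), t)) hsub
    ((hF.cd t).differentiableAt (by simp)) ?_ (1, 0)
  filter_upwards [hF.ev t] with q hq
  exact hq.1.mem q.2

/-- The chart expression of the family satisfies the Jacobi equation. -/
theorem Fam.JD (hsub : IsSub F S) (hc : Chart S Ω ψ P W) {t : ℝ} (ht : G 0 t ∈ W) :
    JD Ω ψ (fun t => P (G 0 t)) (fun t => P (deriv (G 0) t)) (fun t => P (VF G t))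
      (fun t => P (deriv (VF G) t)) t := by
  have g0 := hF.geo0
  obtain ⟨a1, a2, a3, a4⟩ := geo_chart hsub hc g0 ht
  refine ⟨a1, P.hasFDerivAt.comp_hasDerivAt t (g0.hasDerivAt t), ?_,
    P.hasFDerivAt.comp_hasDerivAt t (hF.smooth_VF.differentiable (by simp) t).hasDerivAt, ?_⟩
  · rw [← a4]
    exact P.hasFDerivAt.comp_hasDerivAt t (g0.hasDerivAt' t)
  · have h1 : HasDerivAt (fun t => P (deriv (VF G) t)) (P (DE (DT (DT (HH G))) (0, t))) t :=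
      P.hasFDerivAt.comp_hasDerivAt t (hF.hasDerivAt_VF' t)
    refine hasDerivAt_congr_val h1 ?_
    have c0 := hF.cd t
    have c1 := contDiffAt_DT c0
    have c2 := contDiffAt_DT c1
    rw [← DE_clm P (c2.differentiableAt (by simp))]
    -- the geodesic equation near `(0, t)`
    have hW : ∀ᶠ q : ℝ × ℝ in 𝓝 (0, t), HH G q ∈ W :=
      c0.continuousAt.preimage_mem_nhds (hc.W_open.mem_nhds ht)
    have hR : (fun q => P (DT (DT (HH G)) q)) =ᶠ[𝓝 (0, t)]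
        fun q => -(Chr ψ (P (HH G q)) (P (DT (HH G) q)) (P (DT (HH G) q))) := by
      filter_upwards [hF.ev t, hW] with q hq hqW
      obtain ⟨b1, b2, b3⟩ := hq
      have b4 := (geo_chart hsub hc b1 (t := q.2) hqW).2.2.2
      rw [b2, b3] at b4
      exact b4
    have dH : HasFDerivAt (HH G) (fderiv ℝ (HH G) (0, t)) (0, t) :=
      (c0.differentiableAt (by simp)).hasFDerivAt
    have dT : HasFDerivAt (DT (HH G)) (fderiv ℝ (DT (HH G)) (0, t)) (0, t) :=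
      (c1.differentiableAt (by simp)).hasFDerivAt
    have dC : HasFDerivAt (Chr ψ) (fderiv ℝ (Chr ψ) (P (HH G (0, t)))) (P (HH G (0, t))) :=
      hasFDerivAt_of_open hc.isOpen hc.toPar.smooth_Chr a1
    have d1 : HasFDerivAt (fun q => P (HH G q)) (P ∘L fderiv ℝ (HH G) (0, t)) (0, t) :=
      P.hasFDerivAt.comp (0, t) dH
    have d2 : HasFDerivAt (fun q => P (DT (HH G) q)) (P ∘L fderiv ℝ (DT (HH G)) (0, t)) (0, t) :=
      P.hasFDerivAt.comp (0, t) dT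
    have d3 : HasFDerivAt (fun q => Chr ψ (P (HH G q)))
        (fderiv ℝ (Chr ψ) (P (HH G (0, t))) ∘L (P ∘L fderiv ℝ (HH G) (0, t))) (0, t) :=
      HasFDerivAt.comp (g := Chr ψ) (f := fun q => P (HH G q)) (0, t) dC d1
    have d4 : HasFDerivAt
        (fun q => -(Chr ψ (P (HH G q)) (P (DT (HH G) q)) (P (DT (HH G) q)))) _ (0, t) :=
      ((d3.clm_apply d2).clm_apply d2).neg
    have d5 : DE (fun q => P (DT (DT (HH G)) q)) (0, t)
        = DE (fun q => -(Chr ψ (P (HH G q)) (P (DT (HH G) q)) (P (DT (HH G) q)))) (0, t) := by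
      show fderiv ℝ _ _ _ = fderiv ℝ _ _ _
      rw [hR.fderiv_eq]
    rw [d5]
    show fderiv ℝ (fun q => -(Chr ψ (P (HH G q)) (P (DT (HH G) q)) (P (DT (HH G) q)))) (0, t)
      (1, 0) = _
    rw [d4.fderiv, (hF.deriv_eq t).1, hF.deriv_VF, hF.VF_eq]
    have e0 : HH G (0, t) = G 0 t := rfl
    have e1 : fderiv ℝ (HH G) (0, t) (1, 0) = DE (HH G) (0, t) := rfl
    have e2 : fderiv ℝ (DT (HH G)) (0, t) (1, 0) = DE (DT (HH G)) (0, t) := rfl
    simp only [neg_apply, add_apply, ContinuousLinearMap.flip_apply,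
      ContinuousLinearMap.comp_apply, e1, e2, e0]
    rw [hc.toPar.Chr_symm a1 (P (DE (DT (HH G)) (0, t)))]
    module

/-- `V' = Dψ (∇v) + nB(u, v)`. -/
theorem Fam.VF'_chart (hsub : IsSub F S) (hc : Chart S Ω ψ P W) {t : ℝ} (ht : G 0 t ∈ W) :
    deriv (VF G) t = fderiv ℝ ψ (P (G 0 t)) (yC ψ (fun t => P (G 0 t))
      (fun t => P (deriv (G 0) t)) (fun t => P (VF G t)) (fun t => P (deriv (VF G) t)) t)
      + nB ψ (P (G 0 t)) (P (deriv (G 0) t)) (P (VF G t)) := by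
  have g0 := hF.geo0
  obtain ⟨a1, a2, a3, -⟩ := geo_chart hsub hc g0 ht
  have d1 : HasDerivAt (fun s => P (G 0 s)) (P (deriv (G 0) t)) t :=
    P.hasFDerivAt.comp_hasDerivAt t (g0.hasDerivAt t)
  have dV : HasDerivAt (VF G) (deriv (VF G) t) t :=
    (hF.smooth_VF.differentiable (by simp) t).hasDerivAt
  have d2 : HasDerivAt (fun s => P (VF G s)) (P (deriv (VF G) t)) t :=
    P.hasFDerivAt.comp_hasDerivAt t dV
  have d3 : HasFDerivAt (fderiv ℝ ψ) (fderiv ℝ (fderiv ℝ ψ) (P (G 0 t))) (P (G 0 t)) :=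
    hasFDerivAt_of_open hc.isOpen hc.toPar.smooth1 a1
  have d4 : HasDerivAt (fun s => fderiv ℝ ψ (P (G 0 s)))
      (fderiv ℝ (fderiv ℝ ψ) (P (G 0 t)) (P (deriv (G 0) t))) t :=
    HasFDerivAt.comp_hasDerivAt (l := fderiv ℝ ψ) (f := fun s => P (G 0 s)) t d3 d1
  have d5 := d4.clm_apply d2
  have h4 : (fun s => fderiv ℝ ψ (P (G 0 s)) (P (VF G s))) =ᶠ[𝓝 t] VF G := by
    have h5 : ∀ᶠ s in 𝓝 t, G 0 s ∈ W :=
      g0.continuous.continuousAt.preimage_mem_nhds (hc.W_open.mem_nhds ht)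
    filter_upwards [h5] with s hs
    exact (hc.of_TSet hs (hF.VF_TSet hsub s)).2.2
  have h5 := d5.unique (dV.congr_of_eventuallyEq h4)
  rw [← h5, D2_eq, yC, map_add]
  abel

end fam

/-- the area square of `V` and the velocity -/
noncomputable def jf (G : ℝ → ℝ → E) (t : ℝ) : ℝ :=
  ⟪VF G t, VF G t⟫_ℝ * ⟪deriv (G 0) 0, deriv (G 0) 0⟫_ℝ - ⟪VF G t, deriv (G 0) t⟫_ℝ ^ 2

noncomputable def jm (G : ℝ → ℝ → E) (t : ℝ) : ℝ :=
  ⟪deriv (VF G) t, VF G t⟫_ℝ * ⟪deriv (G 0) 0, deriv (G 0) 0⟫_ℝ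
    - ⟪VF G t, deriv (G 0) t⟫_ℝ * ⟪deriv (VF G) t, deriv (G 0) t⟫_ℝ

theorem Fam.chart_vals (hF : Fam S G) (hsub : IsSub F S) (hc : Chart S Ω ψ P W) {t : ℝ}
    (ht : G 0 t ∈ W) :
    jf G t = fC ψ (fun t => P (G 0 t)) (fun t => P (deriv (G 0) t)) (fun t => P (VF G t)) t ∧
    jm G t = mC ψ (fun t => P (G 0 t)) (fun t => P (deriv (G 0) t)) (fun t => P (VF G t))
      (fun t => P (deriv (VF G) t)) t ∧
    gB ψ (P (G 0 t)) (P (deriv (G 0) t)) (P (deriv (G 0) t))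
      = ⟪deriv (G 0) 0, deriv (G 0) 0⟫_ℝ ∧
    (VF G t = 0 → hC ψ (fun t => P (G 0 t)) (fun t => P (deriv (G 0) t)) (fun t => P (VF G t))
      (fun t => P (deriv (VF G) t)) t
        = ⟪deriv (VF G) t, deriv (VF G) t⟫_ℝ * ⟪deriv (G 0) 0, deriv (G 0) 0⟫_ℝ
          - ⟪deriv (VF G) t, deriv (G 0) t⟫_ℝ ^ 2) := by
  have g0 := hF.geo0
  obtain ⟨a1, a2, a3, -⟩ := geo_chart hsub hc g0 ht
  have b3 := (hc.of_TSet ht (hF.VF_TSet hsub t)).2.2
  have hV' := hF.VF'_chart hsub hc ht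
  have hs : ⟪deriv (G 0) t, deriv (G 0) t⟫_ℝ = ⟪deriv (G 0) 0, deriv (G 0) 0⟫_ℝ := by
    rw [real_inner_self_eq_norm_sq, real_inner_self_eq_norm_sq, g0.speed t 0]
  have c1 : gB ψ (P (G 0 t)) (P (deriv (G 0) t)) (P (deriv (G 0) t))
      = ⟪deriv (G 0) 0, deriv (G 0) 0⟫_ℝ := by rw [gB_apply, a3, hs]
  have c2 : gB ψ (P (G 0 t)) (P (VF G t)) (P (VF G t)) = ⟪VF G t, VF G t⟫_ℝ := by
    rw [gB_apply, b3]
  have c3 : gB ψ (P (G 0 t)) (P (VF G t)) (P (deriv (G 0) t)) = ⟪VF G t, deriv (G 0) t⟫_ℝ := by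
    rw [gB_apply, a3, b3]
  set y := yC ψ (fun t => P (G 0 t)) (fun t => P (deriv (G 0) t)) (fun t => P (VF G t))
    (fun t => P (deriv (VF G) t)) t with hy
  have c4 : ∀ z, ⟪deriv (VF G) t, fderiv ℝ ψ (P (G 0 t)) z⟫_ℝ = gB ψ (P (G 0 t)) y z := by
    intro z
    rw [hV', inner_add_left, hc.toPar.inner_nB a1, add_zero, gB_apply]
  have c5 : gB ψ (P (G 0 t)) y (P (VF G t)) = ⟪deriv (VF G) t, VF G t⟫_ℝ := by
    rw [← c4, b3]
  have c6 : gB ψ (P (G 0 t)) y (P (deriv (G 0) t)) = ⟪deriv (VF G) t, deriv (G 0) t⟫_ℝ := by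
    rw [← c4, a3]
  refine ⟨?_, ?_, c1, fun h0 => ?_⟩
  · simp only [jf, fC]
    rw [c1, c2, c3]
  · simp only [jm, mC]
    rw [← hy, c1, c3, c5, c6]
  · simp only [hC]
    rw [← hy, c1, c6]
    have h1 : deriv (VF G) t = fderiv ℝ ψ (P (G 0 t)) y := by
      rw [hV', h0, map_zero]
      have : nB ψ (P (G 0 t)) (P (deriv (G 0) t)) 0 = 0 := by simp [nB]
      rw [this, add_zero]
    have h2 : gB ψ (P (G 0 t)) y y = ⟪deriv (VF G) t, deriv (VF G) t⟫_ℝ := by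
      rw [gB_apply, ← h1]
    rw [h2]

/-- **The Jacobi equation for a surface of constant curvature along the geodesic.** -/
theorem Fam.jacobi (hdim : Module.finrank ℝ E = Module.finrank ℝ F + 2) (hsub : IsSub F S)
    (hF : Fam S G) {k₀ : ℝ} (hk : ∀ t, CurvAt S (G 0 t) k₀) : ∃ h : ℝ → ℝ,
    (∀ t, HasDerivAt (jf G) (2 * jm G t) t) ∧
    (∀ t, HasDerivAt (jm G) (h t - k₀ * ⟪deriv (G 0) 0, deriv (G 0) 0⟫_ℝ * jf G t) t) ∧
    (∀ t, HasDerivAt h (-2 * (k₀ * ⟪deriv (G 0) 0, deriv (G 0) 0⟫_ℝ) * jm G t) t) ∧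
    (∀ t, VF G t = 0 → h t
        = ⟪deriv (VF G) t, deriv (VF G) t⟫_ℝ * ⟪deriv (G 0) 0, deriv (G 0) 0⟫_ℝ
          - ⟪deriv (VF G) t, deriv (G 0) t⟫_ℝ ^ 2) := by
  set σ := ⟪deriv (G 0) 0, deriv (G 0) 0⟫_ℝ with hσ
  have g0 := hF.geo0
  -- local statement
  have key : ∀ t, ∃ (Ω : Set (ℝ × ℝ)) (ψ : ℝ × ℝ → E) (P : E →L[ℝ] ℝ × ℝ) (W : Set E),
      Chart S Ω ψ P W ∧ G 0 t ∈ W := by
    intro t
    obtain ⟨U, hU, f, hf⟩ := hsub (G 0 t) (g0.mem t)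
    exact exists_chart hdim hf hU (g0.mem t)
  have loc : ∀ t (Ω : Set (ℝ × ℝ)) (ψ : ℝ × ℝ → E) (P : E →L[ℝ] ℝ × ℝ) (W : Set E),
      Chart S Ω ψ P W → G 0 t ∈ W →
      HasDerivAt (jf G) (2 * jm G t) t ∧
      HasDerivAt (jm G) (hC ψ (fun t => P (G 0 t)) (fun t => P (deriv (G 0) t))
        (fun t => P (VF G t)) (fun t => P (deriv (VF G) t)) t - k₀ * σ * jf G t) t ∧
      HasDerivAt (hC ψ (fun t => P (G 0 t)) (fun t => P (deriv (G 0) t))
        (fun t => P (VF G t)) (fun t => P (deriv (VF G) t))) (-2 * (k₀ * σ) * jm G t) t := by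
    intro t Ω ψ P W hc ht
    have ev : ∀ᶠ s in 𝓝 t, G 0 s ∈ W :=
      g0.continuous.continuousAt.preimage_mem_nhds (hc.W_open.mem_nhds ht)
    obtain ⟨t1, t2, t3⟩ := (hF.JD hsub hc ht).three hc.toPar
    obtain ⟨v1, v2, v3, -⟩ := hF.chart_vals hsub hc ht
    obtain ⟨a1, a2, -, -⟩ := geo_chart hsub hc g0 ht
    have hK : GK ψ (P (G 0 t)) = k₀ := hk t Ω ψ _ hc.toPar a1 a2
    simp only [hK, v3, ← hσ, ← v1, ← v2] at t1 t2 t3
    refine ⟨t1.congr_of_eventuallyEq ?_, t2.congr_of_eventuallyEq ?_, t3⟩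
    · filter_upwards [ev] with s hs
      exact (hF.chart_vals hsub hc hs).1
    · filter_upwards [ev] with s hs
      exact (hF.chart_vals hsub hc hs).2.1
  have hm : ∀ t (Ω : Set (ℝ × ℝ)) (ψ : ℝ × ℝ → E) (P : E →L[ℝ] ℝ × ℝ) (W : Set E),
      Chart S Ω ψ P W → G 0 t ∈ W → deriv (jm G) t + k₀ * σ * jf G t
        = hC ψ (fun t => P (G 0 t)) (fun t => P (deriv (G 0) t))
        (fun t => P (VF G t)) (fun t => P (deriv (VF G) t)) t := by
    intro t Ω ψ P W hc ht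
    rw [(loc t Ω ψ P W hc ht).2.1.deriv]; ring
  refine ⟨fun t => deriv (jm G) t + k₀ * σ * jf G t, fun t => ?_, fun t => ?_, fun t => ?_,
    fun t h0 => ?_⟩
  · obtain ⟨Ω, ψ, P, W, hc, ht⟩ := key t
    exact (loc t Ω ψ P W hc ht).1
  · obtain ⟨Ω, ψ, P, W, hc, ht⟩ := key t
    have h1 := (loc t Ω ψ P W hc ht).2.1
    rw [← hm t Ω ψ P W hc ht] at h1
    exact h1
  · obtain ⟨Ω, ψ, P, W, hc, ht⟩ := key t
    refine (loc t Ω ψ P W hc ht).2.2.congr_of_eventuallyEq ?_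
    have ev : ∀ᶠ s in 𝓝 t, G 0 s ∈ W :=
      g0.continuous.continuousAt.preimage_mem_nhds (hc.W_open.mem_nhds ht)
    filter_upwards [ev] with s hs
    exact hm s Ω ψ P W hc hs
  · obtain ⟨Ω, ψ, P, W, hc, ht⟩ := key t
    show deriv (jm G) t + k₀ * σ * jf G t = _
    rw [hm t Ω ψ P W hc ht]
    exact (hF.chart_vals hsub hc ht).2.2.2 h0

end Pool.Agent.H77.PG
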